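import Pool.Agent.TH368.GW.Emb
import Pool.Agent.TH368.GT.Cnt

/-!
# Counting the ends of the chains
-/

set_option autoImplicit false

namespace Pool.Agent.TH368.GW

open Finset Pool.Agent.H115R2
open Pool.Agent.TH368.GT (ncard_two_le exists_of_two_le)

variable {V : Type} [Fintype V] {T : SimpleGraph V}

/-- the vertices with at least two neighbours, at most one of them with at least two neighbours -/
def Dv (T : SimpleGraph V) : Set V := {x : V | 2 ≤ (T.neighborSet x).ncard ∧
  {y : V | T.Adj x y ∧ 2 ≤ (T.neighborSet y).ncard}.ncard ≤ 1}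

/-- a vertex with a child but without grandchildren -/
lemma Qs_sub (hT : T.IsTree) (r v : V) (hv : v ∈ Qs T r) (hvr : v ≠ r) : v ∈ Dv T := by
  obtain ⟨par, hr⟩ := exists_root T hT r
  obtain ⟨⟨w, hw1, hw2⟩, hv2⟩ := hv
  refine ⟨?_, ?_⟩
  · have h1 := hr.dist v hvr
    exact ncard_two_le (x := par v) (y := w)
      ((SimpleGraph.mem_neighborSet _ _ _).2 (hr.adj v hvr).symm)
      ((SimpleGraph.mem_neighborSet _ _ _).2 hw1) (by
        intro h
        rw [h] at h1
        omega)
  have h3 : {y : V | T.Adj v y ∧ 2 ≤ (T.neighborSet y).ncard} ⊆ {par v} := by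
    rintro y ⟨hy1, hy2⟩
    rw [Set.mem_singleton_iff]
    by_contra hne
    rcases hr.cov v y hy1 with ⟨h4, h5⟩ | ⟨h4, h5⟩
    · exact hne h5.symm
    · obtain ⟨z, hz1, hz2⟩ := exists_of_two_le hy2 v
      rw [SimpleGraph.mem_neighborSet] at hz1
      have h6 := hr.dist y h4
      rw [h5] at h6
      rcases hr.cov y z hz1 with ⟨h7, h8⟩ | ⟨h7, h8⟩
      · exact hz2 (h8.symm.trans h5)
      · have h9 := hr.dist z h7
        rw [h8] at h9
        exact hv2 y z hy1 hz1 (by omega)
  have h4 := Set.ncard_le_ncard h3 (Set.toFinite _)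
  rw [Set.ncard_singleton] at h4
  exact h4

/-- the colour and the parity of the distance -/
lemma color_even (hT : T.IsTree) {c : V → Bool} (hc : ∀ u v, T.Adj u v → c u ≠ c v) (r v : V) :
    c v = c r ↔ Even (T.dist r v) := by
  obtain ⟨par, hr⟩ := exists_root T hT r
  have key : ∀ n v, T.dist r v = n → (c v = c r ↔ Even n) := by
    intro n
    induction n with
    | zero =>
      intro v hv
      have h1 : v = r := by
        by_contra h2
        have := hr.dist v h2
        omega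
      rw [h1]
      simp
    | succ n ih =>
      intro v hv
      have hvr : v ≠ r := by
        rintro rfl
        rw [SimpleGraph.dist_self] at hv
        omega
      have h1 := hr.dist v hvr
      have h2 := ih (par v) (by omega)
      have h3 := hc (par v) v (hr.adj v hvr)
      rw [Nat.even_add_one, ← h2]
      revert h3
      cases c v <;> cases c (par v) <;> cases c r <;> simp
  exact key _ v rfl

/-- **a good root in the given colour class** -/
theorem exists_good (hT : T.IsTree) {c : V → Bool} (hc : ∀ u v, T.Adj u v → c u ≠ c v) (s : Bool)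
    {u v : V} (huv : T.Adj u v) (hu : 2 ≤ (T.neighborSet u).ncard)
    (hv : 2 ≤ (T.neighborSet v).ncard) :
    ∃ r : V, c r ≠ s ∧ (∃ w, T.Adj r w) ∧ (Qs T r).ncard + 1 ≤ (Dv T).ncard := by
  classical
  obtain ⟨par, hr⟩ := exists_root T hT u
  obtain ⟨y, hy, hmax⟩ := Finset.exists_max_image
    (univ.filter (fun v => 2 ≤ (T.neighborSet v).ncard)) (fun v => T.dist u v)
    ⟨u, by rw [mem_filter]; exact ⟨mem_univ _, hu⟩⟩
  rw [mem_filter] at hy
  have hy2 := hy.2
  have hyu : y ≠ u := by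
    intro h
    have h1 := hmax v (by rw [mem_filter]; exact ⟨mem_univ _, hv⟩)
    have h2 : T.dist u v = 1 := SimpleGraph.dist_eq_one_iff_adj.2 huv
    rw [h, SimpleGraph.dist_self] at h1
    omega
  have hsub : {z : V | T.Adj y z ∧ 2 ≤ (T.neighborSet z).ncard} ⊆ {par y} := by
    rintro z ⟨hz1, hz2⟩
    rw [Set.mem_singleton_iff]
    by_contra hne
    rcases hr.cov y z hz1 with ⟨h4, h5⟩ | ⟨h4, h5⟩
    · exact hne h5.symm
    · have h6 := hr.dist z h4
      rw [h5] at h6
      have h7 := hmax z (by rw [mem_filter]; exact ⟨mem_univ _, hz2⟩)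
      omega
  have hyD : {z : V | T.Adj y z ∧ 2 ≤ (T.neighborSet z).ncard}.ncard ≤ 1 := by
    have h4 := Set.ncard_le_ncard hsub (Set.toFinite _)
    rw [Set.ncard_singleton] at h4
    exact h4
  -- the neighbour `z` of `y` which is no leaf
  obtain ⟨z, hz⟩ : ∃ z, z = par y := ⟨_, rfl⟩
  have hz1 : T.Adj y z := by
    rw [hz]
    exact (hr.adj y hyu).symm
  have hz2 : 2 ≤ (T.neighborSet z).ncard := by
    by_cases hzu : z = u
    · rw [hzu]; exact hu
    · have h1 := hr.dist z hzu
      have h2 := hr.dist y hyu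
      rw [← hz] at h2
      refine ncard_two_le (x := par z) (y := y)
        ((SimpleGraph.mem_neighborSet _ _ _).2 (hr.adj z hzu).symm)
        ((SimpleGraph.mem_neighborSet _ _ _).2 hz1.symm) ?_
      intro h
      rw [h] at h1
      omega
  -- the leaf `s'` at `y`
  obtain ⟨s', hs1, hs2⟩ := exists_of_two_le hy2 z
  rw [SimpleGraph.mem_neighborSet] at hs1
  have hs3 : (T.neighborSet s').ncard = 1 := by
    have h1 : 1 ≤ (T.neighborSet s').ncard := by
      have h2 : (T.neighborSet s').Nonempty :=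
        ⟨y, (SimpleGraph.mem_neighborSet _ _ _).2 hs1.symm⟩
      exact (Set.ncard_pos (Set.toFinite _)).2 h2
    by_contra h2
    have h3 : 2 ≤ {z : V | T.Adj y z ∧ 2 ≤ (T.neighborSet z).ncard}.ncard :=
      ncard_two_le (x := s') (y := z) ⟨hs1, by omega⟩ ⟨hz1, hz2⟩ hs2
    omega
  obtain ⟨z2, hz3, hz4⟩ := exists_of_two_le hz2 y
  rw [SimpleGraph.mem_neighborSet] at hz3
  -- distances
  have hd4 : ∀ u v w, T.Adj u v → T.Adj v w → w ≠ u → T.dist u w = 2 := by
    intro u v w huv hvw hwu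
    have h1 : T.dist u v = 1 := SimpleGraph.dist_eq_one_iff_adj.2 huv
    rcases hT.dist_eq_dist_add_one_of_adj u hvw with h2 | h2
    · have h3 : T.dist u w = 0 := by omega
      have h4 := (hT.1.dist_eq_zero_iff).1 h3
      exact absurd h4.symm hwu
    · omega
  have hmem : y ∈ Dv T := ⟨hy2, hyD⟩
  have hfin : ∀ r, (∀ v ∈ Qs T r, v ≠ r ∧ v ≠ y) → (Qs T r).ncard + 1 ≤ (Dv T).ncard := by
    intro r h
    have h1 : Qs T r ⊆ Dv T \ {y} := by
      intro v hv
      obtain ⟨h2, h3⟩ := h v hv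
      exact ⟨Qs_sub hT r v hv h2, h3⟩
    have h2 := Set.ncard_le_ncard h1 (Set.toFinite _)
    have h3 := Set.ncard_sdiff_singleton_add_one hmem (Set.toFinite _)
    omega
  by_cases hcy : c y = s
  · refine ⟨s', ?_, ⟨y, hs1.symm⟩, hfin s' ?_⟩
    · rw [← hcy]
      exact (hc y s' hs1).symm
    · intro v hv
      have hd2 : T.dist s' y = 1 := SimpleGraph.dist_eq_one_iff_adj.2 hs1.symm
      have hd3 : T.dist s' z = 2 := hd4 s' y z hs1.symm hz1 (Ne.symm hs2)
      refine ⟨?_, ?_⟩
      · rintro rfl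
        refine hv.2 y z hs1.symm hz1 ?_
        rw [SimpleGraph.dist_self, hd3]
      · rintro rfl
        refine hv.2 z z2 hz1 hz3 ?_
        rcases hT.dist_eq_dist_add_one_of_adj s' hz3 with h2 | h2
        · exfalso
          have h3 : T.dist s' z2 = 1 := by omega
          have h4 : T.Adj s' z2 := SimpleGraph.dist_eq_one_iff_adj.1 h3
          have h5 : 2 ≤ (T.neighborSet s').ncard :=
            ncard_two_le (x := z2) (y := v) ((SimpleGraph.mem_neighborSet _ _ _).2 h4)
              ((SimpleGraph.mem_neighborSet _ _ _).2 hs1.symm) hz4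
          omega
        · omega
  · refine ⟨y, hcy, ⟨z, hz1⟩, hfin y ?_⟩
    intro v hv
    have h1 : v ≠ y := by
      rintro rfl
      refine hv.2 z z2 hz1 hz3 ?_
      rw [SimpleGraph.dist_self, hd4 v z z2 hz1 hz3 hz4]
    exact ⟨h1, h1⟩

/-- **The graceful tree.** -/
theorem main (hT : T.IsTree) {c : V → Bool} (hc : ∀ u v, T.Adj u v → c u ≠ c v) (s : Bool) (L : ℕ)
    (hL : ∀ p, c p = s → {v : V | T.Adj p v ∧ (T.neighborSet v).ncard = 1}.ncard ≤ L) :
    ∃ (M : ℕ) (G : SimpleGraph (Fin (M + 1))),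
    M ≤ T.edgeSet.ncard + 2 * (L + 1) * ((Dv T).ncard - 2) ∧ G.IsTree ∧ G.edgeSet.ncard = M ∧
    {d : ℕ | ∃ u v : Fin (M + 1), G.Adj u v ∧ d = Int.natAbs (((u : ℕ) : ℤ) - ((v : ℕ) : ℤ))} =
      Set.Icc 1 M ∧ T.IsContained G := by
  by_cases hex : ∃ u v, T.Adj u v ∧ 2 ≤ (T.neighborSet u).ncard ∧ 2 ≤ (T.neighborSet v).ncard
  · obtain ⟨u, v, h1, h2, h3⟩ := hex
    obtain ⟨r, h4, h5, h6⟩ := exists_good hT hc s h1 h2 h3
    obtain ⟨N, M, G, t1, t2, t3, t4, t5, t6⟩ := exists_super hT r L h5 (by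
      intro p hp
      apply hL p
      have h7 := (not_congr (color_even hT hc r p)).2 hp
      revert h7 h4
      cases c p <;> cases c r <;> cases s <;> simp)
    refine ⟨M, G, t1.trans ?_, t3, t4, t5, t6⟩
    apply Nat.add_le_add_left
    apply Nat.mul_le_mul_left
    omega
  · push Not at hex
    obtain ⟨r0⟩ := hT.1.nonempty
    obtain ⟨y, hy⟩ : ∃ y : V, ∀ z, T.Adj y z → ¬ 2 ≤ (T.neighborSet z).ncard := by
      by_cases h1 : ∃ y, 2 ≤ (T.neighborSet y).ncard
      · obtain ⟨y, h2⟩ := h1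
        exact ⟨y, fun z hz => by have := hex y z hz h2; omega⟩
      · push Not at h1
        exact ⟨r0, fun z _ => by have := h1 z; omega⟩
    have h1 := Pool.Agent.TH368.GT.noGrand_le_one hT y hy
    obtain ⟨M, G, t1, t2, t3, t4, t5, -⟩ := Pool.Agent.TH368.GT.exists_super hT y
    refine ⟨M, G, ?_, t2, t3, t4, t5⟩
    have h2 : 2 * ((Pool.Agent.TH368.GT.noGrand T y).ncard - 1) = 0 := by omega
    rw [h2] at t1
    omega

end Pool.Agent.TH368.GW
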