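import Pool.Agent.TH368.GW.Num
import Pool.Agent.TH368.GT.Enu

/-!
# Zigzag enumeration of a rooted tree with windows and blocks

The root is an upper vertex. When an upper vertex is placed, all its children are placed, the last
one having a child if possible. Then, as long as the last lower vertex has a child which is not
placed, such a child is placed (childless ones first); otherwise a child of the first lower vertex
with an unplaced child is placed (childless ones first): a jump.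
-/

set_option autoImplicit false

namespace Pool.Agent.TH368.GW

open Finset Pool.Agent.H115R2

variable {V : Type} [Fintype V] {T : SimpleGraph V} {r : V} {par : V → V}

/-- a vertex without children -/
def Chl (r : V) (par : V → V) (v : V) : Prop := ∀ w, w ≠ r → par w ≠ v

/-- the end of a chain at the upper vertex `q` -/
def End (r : V) (par : V → V) (g : ℕ → V) (q : ℕ) : Prop :=
  (∀ w z, w ≠ r → z ≠ r → par w = g q → par z = w → False) ∧
    (1 ≤ q → Chl r par (g q) → ∀ v, v ≠ r → par v = par (g q) →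
      (∃ j, j ≤ q ∧ g j = v) ∧ Chl r par v)

/-- a partial enumeration -/
structure St (T : SimpleGraph V) (r : V) (par : V → V) (L a b : ℕ) (f g : ℕ → V) (c π : ℕ → ℕ)
    (Sp Bs : Finset ℕ) : Prop where
  dat : Dat L a b c π Sp Bs
  g0 : g 0 = r
  finj : ∀ i i', i < a → i' < a → f i = f i' → i = i'
  ginj : ∀ j j', j < b → j' < b → g j = g j' → j = j'
  fpar : ∀ i, i < a → f i ≠ r ∧ par (f i) = g (c i)
  gpar : ∀ j, 1 ≤ j → j < b → g j ≠ r ∧ par (g j) = f (π j)
  gev : ∀ j, j < b → Even (T.dist r (g j))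
  fodd : ∀ i, i < a → ¬ Even (T.dist r (f i))
  sp : ∀ j ∈ Sp, 1 ≤ j ∧ j < b
  bs : ∀ j ∈ Bs, j ∈ Sp
  full : ∀ v, v ≠ r → ∀ j, j < b → par v = g j → ∃ i, i < a ∧ f i = v
  pend : ∀ v, v ≠ r → ∀ i, i < a → par v = f i → (∃ j, j < b ∧ g j = v) ∨ ∀ j ∈ Sp, π j ≤ i
  nc : ∀ j, 1 ≤ j → j < b → ¬ Chl r par (g j) → ∀ v, v ≠ r → par v = f (π j) → Chl r par v →
    ∃ j', j' < j ∧ g j' = v
  fin : ∀ j ∈ Bs, End r par g (j - 1)
  opn : (∃ v, v ≠ r ∧ 1 ≤ a ∧ par v = f (a - 1) ∧ ∀ j, j < b → g j ≠ v) →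
    ∀ j, c (a - 1) < j → j < b → π j + 1 = a ∧ Chl r par (g j)
  last : ∀ w z, w ≠ r → z ≠ r → par w = g (b - 1) → par z = w →
    ∃ v, v ≠ r ∧ 1 ≤ a ∧ par v = f (a - 1) ∧ ∀ j, j < b → g j ≠ v
  lreg : ∀ j, 1 ≤ j → j + 1 = b → j ∉ Sp → Chl r par (g j) → π j + 1 = a
  bst : ∀ j, j + 1 = b → j ∈ Sp → Chl r par (g j) → ∃ s ∈ Bs, s ≤ j ∧
    ∀ q, s ≤ q → q ≤ j → π q = π j ∧ Chl r par (g q)

omit [Fintype V] in
lemma St.ord {L a b : ℕ} {f g : ℕ → V} {c π : ℕ → ℕ} {Sp Bs : Finset ℕ}
    (h : St T r par L a b f g c π Sp Bs) {j q : ℕ} (hj : 1 ≤ j) (hjq : j < q) (hq : q < b)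
    (hπ : π j = π q) (hc : Chl r par (g q)) : Chl r par (g j) := by
  by_contra hn
  obtain ⟨h1, h2⟩ := h.gpar q (by omega) hq
  obtain ⟨j', h3, h4⟩ := h.nc j hj (by omega) hn (g q) h1 (by rw [h2, hπ]) hc
  have := h.ginj j' q (by omega) hq h4
  omega

lemma start (hr : Root T r par) (L : ℕ) : ∃ a f g c π, St T r par L a 1 f g c π ∅ ∅ := by
  classical
  obtain ⟨n, e, h1, h2, h3, h4⟩ := Pool.Agent.TH368.GT.exists_children r par r
  refine ⟨n, e, fun _ => r, fun _ => 0, fun _ => 0, ?_⟩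
  refine ⟨⟨⟨le_rfl, ?_, ?_, ?_⟩, ?_, ?_, ?_⟩, rfl, h2, ?_, ?_, ?_, ?_, ?_, ?_, ?_, ?_, ?_, ?_, ?_,
    ?_, ?_, ?_, ?_⟩
  · intro i _; omega
  · intro i i' _ _; omega
  · intro j hj1 hj2; omega
  · intro j hj1 hj2; omega
  · intro j hj; simp at hj
  · intro j hj; simp at hj
  · intro j j' hj hj' _; omega
  · intro i hi; exact h1 i hi
  · intro j hj1 hj2; omega
  · intro j _
    rw [SimpleGraph.dist_self]
    exact ⟨0, rfl⟩
  · intro i hi
    have h5 := h1 i hi
    have h6 := hr.dist (e i) h5.1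
    rw [h5.2, SimpleGraph.dist_self] at h6
    rw [h6]
    rintro ⟨k, hk⟩
    omega
  · intro j hj; simp at hj
  · intro j hj; simp at hj
  · intro v hv j _ hp
    exact h3 v hv hp
  · intro v _ i _ _
    right
    intro j hj
    simp at hj
  · intro j hj1 hj2; omega
  · intro j hj; simp at hj
  · intro _ j hj1 hj2; omega
  · intro w z hw hz hwp hzw
    obtain ⟨k, z', hk, hz', hz''⟩ := h4 w z hw hz hwp hzw
    refine ⟨z', hz', by omega, ?_, fun j _ h => hz' h.symm⟩
    rw [hz'']
    congr 1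
    omega
  · intro j hj1 hj2; omega
  · intro j _ hj; simp at hj

/-- placing a further upper vertex `β` and its children -/
lemma extend (hr : Root T r par) {L a b : ℕ} {f g : ℕ → V} {c π : ℕ → ℕ} {Sp Bs : Finset ℕ}
    (hL : ∀ p, ¬ Even (T.dist r p) → ∀ S : Finset V,
      (∀ v ∈ S, v ≠ r ∧ par v = p ∧ Chl r par v) → S.card ≤ L)
    (h : St T r par L a b f g c π Sp Bs) (β : V) (hβ : β ≠ r) (p : ℕ) (hp : p < a)
    (hpar : par β = f p) (hun : ∀ j, j < b → g j ≠ β)
    (hpref : ¬ Chl r par β → ∀ v, v ≠ r → par v = f p → Chl r par v → ∃ j, j < b ∧ g j = v)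
    (Sp' Bs' : Finset ℕ)
    (hSp : (Sp' = Sp ∧ Bs' = Bs ∧ p + 1 = a) ∨
      (Sp' = insert b Sp ∧ (∀ j ∈ Sp, π j ≤ p) ∧
        (∀ v, v ≠ r → ∀ i, i < a → par v = f i → (∀ j, j < b → g j ≠ v) → p ≤ i) ∧
        (¬ ∃ v, v ≠ r ∧ 1 ≤ a ∧ par v = f (a - 1) ∧ ∀ j, j < b → g j ≠ v) ∧
        ((Bs' = Bs ∧ ∃ j, j + 1 = b ∧ j ∈ Sp ∧ π j = p ∧ Chl r par (g j)) ∨
          (Bs' = insert b Bs ∧ End r par g (b - 1))))) :
    ∃ a' f' g' c' π', St T r par L a' (b + 1) f' g' c' π' Sp' Bs' := by
  classical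
  obtain ⟨n, e, h1, h2, h3, h4⟩ := Pool.Agent.TH368.GT.exists_children r par β
  have hb : 1 ≤ b := h.dat.d0.hb
  have hn0 : Chl r par β → n = 0 := by
    intro hc
    by_contra hn
    have := h1 0 (by omega)
    exact hc (e 0) this.1 this.2
  have h0n : n = 0 → Chl r par β := by
    intro hn w hw hwβ
    obtain ⟨k, hk, -⟩ := h3 w hw hwβ
    omega
  -- elements of `Sp'`
  have hSpsub : ∀ j ∈ Sp', j ∈ Sp ∨ j = b := by
    intro j hj
    rcases hSp with ⟨h5, -⟩ | ⟨h5, -⟩
    · rw [h5] at hj; exact Or.inl hj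
    · rw [h5, mem_insert] at hj
      exact hj.symm
  have hSpsup : ∀ j ∈ Sp, j ∈ Sp' := by
    intro j hj
    rcases hSp with ⟨h5, -⟩ | ⟨h5, -⟩
    · rw [h5]; exact hj
    · rw [h5, mem_insert]; exact Or.inr hj
  have hbSp : b ∉ Sp := by
    intro h5
    have := h.sp b h5
    omega
  have hBslt : ∀ j ∈ Bs, 1 ≤ j ∧ j < b := fun j hj => h.sp j (h.bs j hj)
  have hBssup : ∀ j ∈ Bs, j ∈ Bs' := by
    intro j hj
    rcases hSp with ⟨-, h5, -⟩ | ⟨-, -, -, -, ⟨h5, -⟩ | ⟨h5, -⟩⟩
    · rw [h5]; exact hj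
    · rw [h5]; exact hj
    · rw [h5, mem_insert]; exact Or.inr hj
  set f' : ℕ → V := fun i => if i < a then f i else e (i - a) with hf'
  set c' : ℕ → ℕ := fun i => if i < a then c i else b with hc'
  set g' : ℕ → V := Function.update g b β with hg'
  set π' : ℕ → ℕ := Function.update π b p with hπ'
  have hf1 : ∀ i, i < a → f' i = f i := fun i hi => if_pos hi
  have hf2 : ∀ i, a ≤ i → f' i = e (i - a) := fun i hi => if_neg (by omega)
  have hc1 : ∀ i, i < a → c' i = c i := fun i hi => if_pos hi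
  have hc2 : ∀ i, a ≤ i → c' i = b := fun i hi => if_neg (by omega)
  have hg1 : ∀ j, j ≠ b → g' j = g j := fun j hj => Function.update_of_ne hj _ _
  have hg2 : g' b = β := Function.update_self _ _ _
  have hπ1 : ∀ j, j ≠ b → π' j = π j := fun j hj => Function.update_of_ne hj _ _
  have hπ2 : π' b = p := Function.update_self _ _ _
  -- an old lower vertex is no child of `β`
  have hne : ∀ i k, i < a → k < n → f i ≠ e k := by
    intro i k hi hk hik
    have h5 := (h.fpar i hi).2
    rw [hik, (h1 k hk).2] at h5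
    exact hun (c i) (h.dat.d0.clt i hi) h5.symm
  have hπa : ∀ j, 1 ≤ j → j < b → π j < a := fun j hj hjb => (h.dat.d0.plt j hj hjb).1
  have hβeven : Even (T.dist r β) := by
    have h5 := hr.dist β hβ
    rw [hpar] at h5
    have h6 := h.fodd p hp
    rw [h5]
    rcases Nat.even_or_odd (T.dist r (f p)) with h7 | h7
    · exact absurd h7 h6
    · exact h7.add_one
  refine ⟨a + n, f', g', c', π', ?_⟩
  refine ⟨⟨⟨by omega, ?_, ?_, ?_⟩, ?_, ?_, ?_⟩, ?_, ?_, ?_, ?_, ?_, ?_, ?_, ?_, ?_, ?_, ?_, ?_, ?_,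
    ?_, ?_, ?_, ?_⟩
  · -- clt
    intro i hi
    rcases Nat.lt_or_ge i a with h5 | h5
    · rw [hc1 i h5]
      have := h.dat.d0.clt i h5
      omega
    · rw [hc2 i h5]
      omega
  · -- cmono
    intro i i' hii hi'
    rcases Nat.lt_or_ge i' a with h5 | h5
    · rw [hc1 i' h5, hc1 i (by omega)]
      exact h.dat.d0.cmono i i' hii h5
    · rw [hc2 i' h5]
      rcases Nat.lt_or_ge i a with h6 | h6
      · rw [hc1 i h6]
        exact (h.dat.d0.clt i h6).le
      · rw [hc2 i h6]
  · -- plt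
    intro j hj1 hjb
    rcases Nat.lt_succ_iff_lt_or_eq.mp hjb with h5 | h5
    · obtain ⟨h6, h7⟩ := h.dat.d0.plt j hj1 h5
      rw [hπ1 j (by omega), hc1 _ h6]
      exact ⟨by omega, h7⟩
    · subst h5
      rw [hπ2, hc1 p hp]
      exact ⟨by omega, h.dat.d0.clt p hp⟩
  · -- reg
    intro j hj1 hjb hj
    rcases Nat.lt_succ_iff_lt_or_eq.mp hjb with h5 | h5
    · obtain ⟨h6, h7⟩ := h.dat.reg j hj1 h5 (fun h8 => hj (hSpsup j h8))
      have h8 := hπa j hj1 h5
      rw [hπ1 j (by omega), hc1 _ h8]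
      refine ⟨h6, ?_⟩
      intro i hi hia
      rcases Nat.lt_or_ge i a with h9 | h9
      · rw [hc1 i h9]
        exact h7 i hi h9
      · rw [hc2 i h9]
        omega
    · subst h5
      rcases hSp with ⟨h5, -, h6⟩ | ⟨h5, -⟩
      · rw [hπ2, hc1 p hp]
        refine ⟨?_, ?_⟩
        · have h7 := h.opn ⟨β, hβ, by omega, by rw [hpar]; congr 1; omega, hun⟩
          have h8 : a - 1 = p := by omega
          rw [h8] at h7
          have h9 := hL (f p) (h.fodd p hp) ((Ioo (c p) j).image g) (by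
            intro v hv
            rw [mem_image] at hv
            obtain ⟨q, hq, rfl⟩ := hv
            rw [mem_Ioo] at hq
            obtain ⟨h10, h11⟩ := h7 q hq.1 hq.2
            obtain ⟨h12, h13⟩ := h.gpar q (by omega) hq.2
            refine ⟨h12, ?_, h11⟩
            rw [h13]
            congr 1
            omega)
          rw [card_image_of_injOn, Nat.card_Ioo] at h9
          · omega
          · intro q hq q' hq' hqq
            rw [mem_coe, mem_Ioo] at hq hq'
            exact h.ginj q q' hq.2 hq'.2 hqq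
        · intro i hi hia
          rw [hc2 i (by omega)]
      · rw [h5] at hj
        exact absurd (mem_insert_self _ _) hj
  · -- fifo
    intro j hj j' hj' hjj
    rcases hSpsub j' hj' with h5 | h5
    · have h6 := h.sp j' h5
      rcases hSpsub j hj with h7 | h7
      · rw [hπ1 j (by omega), hπ1 j' (by omega)]
        exact h.dat.fifo j h7 j' h5 hjj
      · omega
    · subst h5
      rcases hSpsub j hj with h7 | h7
      · rw [hπ1 j (by omega), hπ2]
        rcases hSp with ⟨h5, -⟩ | ⟨-, h6, -⟩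
        · rw [h5] at hj'
          exact absurd hj' hbSp
        · exact h6 j h7
      · omega
  · -- blk
    intro j hj
    rcases hSpsub j hj with h5 | h5
    · have h6 := h.sp j h5
      obtain ⟨s, hs1, hs2, hs3, hs4⟩ := h.dat.blk j h5
      exact ⟨s, hBssup s hs1, hs2, hs3, by rw [hπ1 s (by omega), hπ1 j (by omega)]; exact hs4⟩
    · subst h5
      rcases hSp with ⟨h5, -⟩ | ⟨-, -, -, -, ⟨h5, j0, h6, h7, h8, h9⟩ | ⟨h5, -⟩⟩
      · rw [h5] at hj
        exact absurd hj hbSp
      · obtain ⟨s, hs1, hs2, hs3⟩ := h.bst j0 h6 h7 h9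
        have hs4 := hBslt s hs1
        refine ⟨s, hBssup s hs1, by omega, ?_, ?_⟩
        · have h10 := hL (f p) (h.fodd p hp) ((Icc s j0).image g) (by
            intro v hv
            rw [mem_image] at hv
            obtain ⟨q, hq, rfl⟩ := hv
            rw [mem_Icc] at hq
            obtain ⟨h10, h11⟩ := hs3 q hq.1 hq.2
            obtain ⟨h12, h13⟩ := h.gpar q (by omega) (by omega)
            refine ⟨h12, ?_, h11⟩
            rw [h13, h10, h8])
          rw [card_image_of_injOn, Nat.card_Icc] at h10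
          · omega
          · intro q hq q' hq' hqq
            rw [mem_coe, mem_Icc] at hq hq'
            exact h.ginj q q' (by omega) (by omega) hqq
        · rw [hπ1 s (by omega), hπ2, (hs3 s le_rfl hs2).1, h8]
      · exact ⟨j, by rw [h5]; exact mem_insert_self _ _, le_rfl, by omega, rfl⟩
  · -- g0
    rw [hg1 0 (by omega)]
    exact h.g0
  · -- finj
    intro i i' hi hi' hii
    rcases Nat.lt_or_ge i a with h5 | h5 <;> rcases Nat.lt_or_ge i' a with h6 | h6
    · rw [hf1 i h5, hf1 i' h6] at hii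
      exact h.finj i i' h5 h6 hii
    · rw [hf1 i h5, hf2 i' h6] at hii
      exact absurd hii (hne i (i' - a) h5 (by omega))
    · rw [hf2 i h5, hf1 i' h6] at hii
      exact absurd hii.symm (hne i' (i - a) h6 (by omega))
    · rw [hf2 i h5, hf2 i' h6] at hii
      have := h2 _ _ (by omega) (by omega) hii
      omega
  · -- ginj
    intro j j' hj hj' hjj
    by_cases h5 : j = b <;> by_cases h6 : j' = b
    · omega
    · rw [h5, hg2, hg1 j' h6] at hjj
      exact absurd hjj.symm (hun j' (by omega))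
    · rw [h6, hg2, hg1 j h5] at hjj
      exact absurd hjj (hun j (by omega))
    · rw [hg1 j h5, hg1 j' h6] at hjj
      exact h.ginj j j' (by omega) (by omega) hjj
  · -- fpar
    intro i hi
    rcases Nat.lt_or_ge i a with h5 | h5
    · have h6 := h.dat.d0.clt i h5
      rw [hf1 i h5, hc1 i h5, hg1 _ (by omega)]
      exact h.fpar i h5
    · rw [hf2 i h5, hc2 i h5, hg2]
      exact h1 _ (by omega)
  · -- gpar
    intro j hj1 hjb
    rcases Nat.lt_succ_iff_lt_or_eq.mp hjb with h5 | h5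
    · rw [hg1 j (by omega), hπ1 j (by omega), hf1 _ (hπa j hj1 h5)]
      exact h.gpar j hj1 h5
    · subst h5
      rw [hg2, hπ2, hf1 p hp]
      exact ⟨hβ, hpar⟩
  · -- gev
    intro j hj
    by_cases h5 : j = b
    · rw [h5, hg2]
      exact hβeven
    · rw [hg1 j h5]
      exact h.gev j (by omega)
  · -- fodd
    intro i hi
    rcases Nat.lt_or_ge i a with h5 | h5
    · rw [hf1 i h5]
      exact h.fodd i h5
    · rw [hf2 i h5]
      obtain ⟨h6, h7⟩ := h1 (i - a) (by omega)
      have h8 := hr.dist _ h6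
      rw [h7] at h8
      rw [h8, Nat.even_add_one, not_not]
      exact hβeven
  · -- sp
    intro j hj
    rcases hSpsub j hj with h5 | h5
    · have := h.sp j h5
      omega
    · omega
  · -- bs
    intro j hj
    rcases hSp with ⟨h5, h6, -⟩ | ⟨h5, -, -, -, ⟨h6, -⟩ | ⟨h6, -⟩⟩
    · rw [h6] at hj
      exact hSpsup j (h.bs j hj)
    · rw [h6] at hj
      exact hSpsup j (h.bs j hj)
    · rw [h6, mem_insert] at hj
      rcases hj with hj | hj
      · rw [hj, h5]
        exact mem_insert_self _ _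
      · exact hSpsup j (h.bs j hj)
  · -- full
    intro v hv j hj hjv
    by_cases h5 : j = b
    · subst h5
      rw [hg2] at hjv
      obtain ⟨k, hk, hkv⟩ := h3 v hv hjv
      refine ⟨a + k, by omega, ?_⟩
      rw [hf2 _ (by omega), Nat.add_sub_cancel_left]
      exact hkv
    · rw [hg1 j h5] at hjv
      obtain ⟨i, hi, hiv⟩ := h.full v hv j (by omega) hjv
      exact ⟨i, by omega, by rw [hf1 i hi]; exact hiv⟩
  · -- pend
    intro v hv i hi hiv
    by_cases hpl : ∃ j, j < b + 1 ∧ g' j = v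
    · exact Or.inl hpl
    right
    push Not at hpl
    have hvg : ∀ j, j < b → g j ≠ v := by
      intro j hj h5
      exact hpl j (by omega) (by rw [hg1 j (by omega)]; exact h5)
    intro j hj
    rcases Nat.lt_or_ge i a with h5 | h5
    · rw [hf1 i h5] at hiv
      rcases hSpsub j hj with h6 | h6
      · have h7 := h.sp j h6
        rw [hπ1 j (by omega)]
        rcases h.pend v hv i h5 hiv with ⟨j', hj', h8⟩ | h8
        · exact absurd h8 (hvg j' hj')
        · exact h8 j h6
      · subst h6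
        rw [hπ2]
        rcases hSp with ⟨h6, -⟩ | ⟨-, -, h6, -⟩
        · rw [h6] at hj
          exact absurd hj hbSp
        · exact h6 v hv i h5 hiv hvg
    · rcases hSpsub j hj with h6 | h6
      · have h7 := h.sp j h6
        have h8 := hπa j h7.1 h7.2
        rw [hπ1 j (by omega)]
        omega
      · subst h6
        rw [hπ2]
        omega
  · -- nc
    intro j hj1 hjb hnc v hv hvp hvc
    rcases Nat.lt_succ_iff_lt_or_eq.mp hjb with h5 | h5
    · rw [hg1 j (by omega)] at hnc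
      rw [hπ1 j (by omega), hf1 _ (hπa j hj1 h5)] at hvp
      obtain ⟨j', h6, h7⟩ := h.nc j hj1 h5 hnc v hv hvp hvc
      exact ⟨j', h6, by rw [hg1 j' (by omega)]; exact h7⟩
    · subst h5
      rw [hg2] at hnc
      rw [hπ2, hf1 p hp] at hvp
      obtain ⟨j', h6, h7⟩ := hpref hnc v hv hvp hvc
      exact ⟨j', h6, by rw [hg1 j' (by omega)]; exact h7⟩
  · -- fin
    have hold : ∀ q, q < b → End r par g q → End r par g' q := by
      intro q hq h5
      refine ⟨?_, ?_⟩
      · intro w z hw hz hwp hzw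
        rw [hg1 q (by omega)] at hwp
        exact h5.1 w z hw hz hwp hzw
      · intro hq1 hqc v hv hvp
        rw [hg1 q (by omega)] at hqc hvp
        obtain ⟨⟨j, h6, h7⟩, h8⟩ := h5.2 hq1 hqc v hv hvp
        exact ⟨⟨j, h6, by rw [hg1 j (by omega)]; exact h7⟩, h8⟩
    intro j hj
    have hj' : j ∈ Bs ∨ (j = b ∧ End r par g (b - 1)) := by
      rcases hSp with ⟨-, h6, -⟩ | ⟨-, -, -, -, ⟨h6, -⟩ | ⟨h6, h7⟩⟩
      · rw [h6] at hj
        exact Or.inl hj
      · rw [h6] at hj
        exact Or.inl hj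
      · rw [h6, mem_insert] at hj
        rcases hj with hj | hj
        · exact Or.inr ⟨hj, h7⟩
        · exact Or.inl hj
    rcases hj' with h5 | ⟨h5, h6⟩
    · have h7 := hBslt j h5
      exact hold (j - 1) (by omega) (h.fin j h5)
    · rw [h5]
      exact hold (b - 1) (by omega) h6
  · -- opn
    rintro ⟨v, hv, ha, hvp, hvu⟩ j hj hjb
    rcases Nat.eq_zero_or_pos n with hn | hn
    · subst hn
      have hβc := h0n rfl
      rw [Nat.add_zero] at hj hvp ha ⊢
      rw [hc1 _ (by omega)] at hj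
      rw [hf1 _ (by omega)] at hvp
      have hvu' : ∀ j, j < b → g j ≠ v := by
        intro j' hj' h5
        exact hvu j' (by omega) (by rw [hg1 j' (by omega)]; exact h5)
      have h5 := h.opn ⟨v, hv, by omega, hvp, hvu'⟩
      rcases hSp with ⟨-, -, h6⟩ | ⟨-, -, -, h6, -⟩
      · rcases Nat.lt_succ_iff_lt_or_eq.mp hjb with h7 | h7
        · rw [hπ1 j (by omega), hg1 j (by omega)]
          exact h5 j hj h7
        · subst h7
          rw [hπ2, hg2]
          exact ⟨h6, hβc⟩
      · exact absurd ⟨v, hv, by omega, hvp, hvu'⟩ h6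
    · rw [hc2 _ (by omega)] at hj
      omega
  · -- last
    intro w z hw hz hwp hzw
    rw [Nat.add_sub_cancel, hg2] at hwp
    obtain ⟨k, z', hk, hz', hz''⟩ := h4 w z hw hz hwp hzw
    refine ⟨z', hz', by omega, ?_, ?_⟩
    · rw [hf2 _ (by omega), hz'']
      congr 1
      omega
    · intro j hj hjz
      by_cases h5 : j = b
      · subst h5
        rw [hg2] at hjz
        rw [← hjz, hpar] at hz''
        exact hne p k hp (by omega) hz''
      · rw [hg1 j h5] at hjz
        rcases Nat.eq_zero_or_pos j with h6 | h6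
        · subst h6
          rw [h.g0] at hjz
          exact hz' hjz.symm
        · have h7 := (h.gpar j h6 (by omega)).2
          rw [hjz, hz''] at h7
          exact hne (π j) k (hπa j h6 (by omega)) (by omega) h7.symm
  · -- lreg
    intro j hj1 hjb hj hjc
    have h5 : j = b := by omega
    subst h5
    rw [hg2] at hjc
    have := hn0 hjc
    rw [hπ2]
    rcases hSp with ⟨-, -, h6⟩ | ⟨h6, -⟩
    · omega
    · rw [h6] at hj
      exact absurd (mem_insert_self _ _) hj
  · -- bst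
    intro j hjb hj hjc
    have h5 : j = b := by omega
    subst h5
    rw [hg2] at hjc
    rcases hSp with ⟨h5, -⟩ | ⟨-, -, -, -, ⟨h5, j0, h6, h7, h8, h9⟩ | ⟨h5, -⟩⟩
    · rw [h5] at hj
      exact absurd hj hbSp
    · obtain ⟨s, hs1, hs2, hs3⟩ := h.bst j0 h6 h7 h9
      refine ⟨s, hBssup s hs1, by omega, ?_⟩
      intro q hq1 hq2
      rcases hq2.lt_or_eq with h10 | h10
      · rw [hπ1 q (by omega), hπ2, hg1 q (by omega), ← h8]
        exact hs3 q hq1 (by omega)
      · rw [h10, hg2]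
        exact ⟨rfl, hjc⟩
    · refine ⟨j, by rw [h5]; exact mem_insert_self _ _, le_rfl, ?_⟩
      intro q hq1 hq2
      have : q = j := by omega
      rw [this, hg2]
      exact ⟨rfl, hjc⟩

/-- as long as there are vertices which are not placed, the enumeration can be continued -/
lemma step (hr : Root T r par) {L a b : ℕ} {f g : ℕ → V} {c π : ℕ → ℕ} {Sp Bs : Finset ℕ}
    (hL : ∀ p, ¬ Even (T.dist r p) → ∀ S : Finset V,
      (∀ v ∈ S, v ≠ r ∧ par v = p ∧ Chl r par v) → S.card ≤ L)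
    (h : St T r par L a b f g c π Sp Bs)
    (hun : ∃ v, (∀ i, i < a → f i ≠ v) ∧ ∀ j, j < b → g j ≠ v) :
    ∃ a' f' g' c' π' Sp' Bs', St T r par L a' (b + 1) f' g' c' π' Sp' Bs' := by
  classical
  -- an unplaced vertex with a placed parent
  have hex : ∃ i, i < a ∧ ∃ v, v ≠ r ∧ par v = f i ∧ ∀ j, j < b → g j ≠ v := by
    obtain ⟨v, hv, hmin⟩ := Finset.exists_min_image
      (univ.filter (fun v => (∀ i, i < a → f i ≠ v) ∧ ∀ j, j < b → g j ≠ v)) (fun v => T.dist r v)
      (by
        obtain ⟨v, hv⟩ := hun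
        exact ⟨v, by rw [mem_filter]; exact ⟨mem_univ _, hv⟩⟩)
    rw [mem_filter] at hv
    obtain ⟨-, hv1, hv2⟩ := hv
    have hvr : v ≠ r := by
      intro h5
      exact hv2 0 h.dat.d0.hb (by rw [h.g0, h5])
    have h5 : ¬ ((∀ i, i < a → f i ≠ par v) ∧ ∀ j, j < b → g j ≠ par v) := by
      intro h6
      have h7 := hmin (par v) (by rw [mem_filter]; exact ⟨mem_univ _, h6⟩)
      have h8 := hr.dist v hvr
      omega
    by_cases h6 : ∃ i, i < a ∧ f i = par v
    · obtain ⟨i, hi, h7⟩ := h6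
      exact ⟨i, hi, v, hvr, h7.symm, hv2⟩
    · push Not at h6
      have h7 : ∃ j, j < b ∧ g j = par v := by
        by_contra h8
        push Not at h8
        exact h5 ⟨h6, h8⟩
      obtain ⟨j, hj, h8⟩ := h7
      obtain ⟨i, hi, h9⟩ := h.full v hvr j hj h8.symm
      exact absurd h9 (hv1 i hi)
  -- childless vertices first
  have hsel : ∀ i, (∃ v, v ≠ r ∧ par v = f i ∧ ∀ j, j < b → g j ≠ v) →
      ∃ β, β ≠ r ∧ par β = f i ∧ (∀ j, j < b → g j ≠ β) ∧
        (¬ Chl r par β → ∀ v, v ≠ r → par v = f i → Chl r par v → ∃ j, j < b ∧ g j = v) := by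
    rintro i ⟨v, hv1, hv2, hv3⟩
    by_cases hc : ∃ u, u ≠ r ∧ par u = f i ∧ (∀ j, j < b → g j ≠ u) ∧ Chl r par u
    · obtain ⟨u, hu1, hu2, hu3, hu4⟩ := hc
      exact ⟨u, hu1, hu2, hu3, fun h5 => absurd hu4 h5⟩
    · refine ⟨v, hv1, hv2, hv3, ?_⟩
      intro _ u hu1 hu2 hu3
      by_contra h5
      push Not at h5
      exact hc ⟨u, hu1, hu2, h5, hu3⟩
  have hi0 : 1 ≤ a := by
    obtain ⟨i0, hi0, -⟩ := hex
    omega
  by_cases hA : ∃ v, v ≠ r ∧ 1 ≤ a ∧ par v = f (a - 1) ∧ ∀ j, j < b → g j ≠ v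
  · obtain ⟨v, h5, h6, h7, h8⟩ := hA
    obtain ⟨β, e1, e2, e3, e4⟩ := hsel (a - 1) ⟨v, h5, h7, h8⟩
    obtain ⟨a', f', g', c', π', h10⟩ := extend hr hL h β e1 (a - 1) (by omega) e2 e3 e4 Sp Bs
      (Or.inl ⟨rfl, rfl, by omega⟩)
    exact ⟨a', f', g', c', π', _, _, h10⟩
  · obtain ⟨h5, v, h6, h7, h8⟩ := Nat.find_spec hex
    set i := Nat.find hex with hi
    have hmin : ∀ v, v ≠ r → ∀ i', i' < a → par v = f i' → (∀ j, j < b → g j ≠ v) → i ≤ i' := by
      intro v' hv' i' hi' hpv' hg'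
      exact Nat.find_min' hex ⟨hi', v', hv', hpv', hg'⟩
    have hq1 : ∀ j ∈ Sp, π j ≤ i := by
      rcases h.pend v h6 i h5 h7 with ⟨j, hj, h11⟩ | h11
      · exact absurd h11 (h8 j hj)
      · exact h11
    obtain ⟨β, e1, e2, e3, e4⟩ := hsel i ⟨v, h6, h7, h8⟩
    by_cases hJ : ∃ j, j + 1 = b ∧ j ∈ Sp ∧ π j = i ∧ Chl r par (g j)
    · obtain ⟨a', f', g', c', π', h10⟩ := extend hr hL h β e1 i h5 e2 e3 e4 (insert b Sp) Bs
        (Or.inr ⟨rfl, hq1, hmin, hA, Or.inl ⟨rfl, hJ⟩⟩)
      exact ⟨a', f', g', c', π', _, _, h10⟩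
    · have hend : End r par g (b - 1) := by
        refine ⟨?_, ?_⟩
        · intro w z hw hz hwp hzw
          exact hA (h.last w z hw hz hwp hzw)
        · intro hq hqc u hu hup
          have hb := h.dat.d0.hb
          obtain ⟨k1, k2⟩ := h.gpar (b - 1) hq (by omega)
          have k3 := (h.dat.d0.plt (b - 1) hq (by omega)).1
          rw [k2] at hup
          have hpl : ∃ j, j < b ∧ g j = u := by
            by_contra hno
            push Not at hno
            by_cases k4 : b - 1 ∈ Sp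
            · have k5 := hmin u hu (π (b - 1)) k3 hup hno
              have k6 := hq1 (b - 1) k4
              exact hJ ⟨b - 1, by omega, k4, by omega, hqc⟩
            · have k5 := h.lreg (b - 1) hq (by omega) k4 hqc
              apply hA
              refine ⟨u, hu, by omega, ?_, hno⟩
              rw [hup]
              congr 1
              omega
          obtain ⟨j, hj, hju⟩ := hpl
          refine ⟨⟨j, by omega, hju⟩, ?_⟩
          have hj1 : 1 ≤ j := by
            rcases Nat.eq_zero_or_pos j with h0 | h0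
            · subst h0
              rw [h.g0] at hju
              exact absurd hju.symm hu
            · exact h0
          rcases Nat.lt_or_ge j (b - 1) with k4 | k4
          · rw [← hju]
            refine h.ord hj1 k4 (by omega) ?_ hqc
            have k5 := (h.gpar j hj1 hj).2
            rw [hju, hup] at k5
            exact (h.finj _ _ (h.dat.d0.plt j hj1 hj).1 k3 k5.symm)
          · have k5 : j = b - 1 := by omega
            rw [← hju, k5]
            exact hqc
      obtain ⟨a', f', g', c', π', h10⟩ := extend hr hL h β e1 i h5 e2 e3 e4 (insert b Sp)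
        (insert b Bs) (Or.inr ⟨rfl, hq1, hmin, hA, Or.inr ⟨rfl, hend⟩⟩)
      exact ⟨a', f', g', c', π', _, _, h10⟩

/-- the complete enumeration -/
lemma all (hr : Root T r par) {L : ℕ}
    (hL : ∀ p, ¬ Even (T.dist r p) → ∀ S : Finset V,
      (∀ v ∈ S, v ≠ r ∧ par v = p ∧ Chl r par v) → S.card ≤ L) :
    ∃ a b f g c π Sp Bs, St T r par L a b f g c π Sp Bs ∧
      ∀ v, (∃ i, i < a ∧ f i = v) ∨ ∃ j, j < b ∧ g j = v := by
  classical
  by_contra hcon
  push Not at hcon
  have key : ∀ b, 1 ≤ b → ∃ a f g c π Sp Bs, St T r par L a b f g c π Sp Bs := by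
    intro b hb
    induction b, hb using Nat.le_induction with
    | base =>
      obtain ⟨a, f, g, c, π, h⟩ := start hr L
      exact ⟨a, f, g, c, π, _, _, h⟩
    | succ b _ ih =>
      obtain ⟨a, f, g, c, π, Sp, Bs, h⟩ := ih
      obtain ⟨v, hv1, hv2⟩ := hcon a b f g c π Sp Bs h
      exact step hr hL h ⟨v, hv1, hv2⟩
  obtain ⟨a, f, g, c, π, Sp, Bs, h⟩ := key (Fintype.card V + 1) (by omega)
  have h1 : (range (Fintype.card V + 1)).card ≤ (univ : Finset V).card := by
    apply card_le_card_of_injOn g (fun _ _ => mem_coe.2 (mem_univ _))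
    intro j hj j' hj' hjj
    rw [mem_coe, mem_range] at hj hj'
    exact h.ginj j j' hj hj' hjj
  rw [card_range, card_univ] at h1
  omega

end Pool.Agent.TH368.GW
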