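import Pool.Agent.TH368.GW.Comp
import Pool.Agent.TH368.GW.Enu
import Pool.Agent.TH368.GT.Emb

/-!
# A graceful tree containing a rooted tree, second version
-/

set_option autoImplicit false

namespace Pool.Agent.TH368.GW

open Finset Pool.Agent.H115R2

/-- the vertices which have a child but no grandchild, if `r` is the root -/
def Qs {V : Type} (T : SimpleGraph V) (r : V) : Set V :=
  {v | (∃ w, T.Adj v w ∧ T.dist r w = T.dist r v + 1) ∧
    ∀ w z, T.Adj v w → T.Adj w z → T.dist r z ≠ T.dist r v + 2}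

variable {V : Type} [Fintype V] {T : SimpleGraph V} {r : V} {par : V → V}

omit [Fintype V] in
lemma mem_Qs (hr : Root T r par) {v w : V} (hw : w ≠ r) (hwv : par w = v)
    (h : ∀ w z, w ≠ r → z ≠ r → par w = v → par z = w → False) : v ∈ Qs T r := by
  refine ⟨⟨w, ?_, ?_⟩, ?_⟩
  · rw [← hwv]
    exact hr.adj w hw
  · rw [hr.dist w hw, hwv]
  · intro w' z h1 h2 h3
    obtain ⟨h4, h5, h6, h7⟩ := Pool.Agent.TH368.GT.par_of hr h1 h2 h3
    exact h w' z h4 h5 h6 h7

omit [Fintype V] in
lemma chl_leaf (hr : Root T r par) {v : V} (hv : v ≠ r) (hc : Chl r par v) :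
    (T.neighborSet v).ncard = 1 := by
  have h1 : T.neighborSet v = {par v} := by
    ext w
    rw [SimpleGraph.mem_neighborSet, Set.mem_singleton_iff]
    constructor
    · intro h
      rcases hr.cov v w h with ⟨h2, h3⟩ | ⟨h2, h3⟩
      · exact h3.symm
      · exact absurd h3 (hc w h2)
    · intro h
      rw [h]
      exact (hr.adj v hv).symm
  rw [h1, Set.ncard_singleton]

/-- **A tree `T` with root `r` is contained in a graceful tree with at most `m + 2 (L + 1) N` edges**,
if every vertex at odd distance from `r` has at most `L` neighbours which are leaves; `N + 1` is at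
most the number of vertices with a child but without grandchildren. -/
theorem exists_super (hT : T.IsTree) (r : V) (L : ℕ) (hne : ∃ w, T.Adj r w)
    (hL : ∀ p, ¬ Even (T.dist r p) →
      {v : V | T.Adj p v ∧ (T.neighborSet v).ncard = 1}.ncard ≤ L) :
    ∃ (N M : ℕ) (G : SimpleGraph (Fin (M + 1))),
    M ≤ T.edgeSet.ncard + 2 * (L + 1) * N ∧ N + 1 ≤ (Qs T r).ncard ∧
    G.IsTree ∧ G.edgeSet.ncard = M ∧
    {d : ℕ | ∃ u v : Fin (M + 1), G.Adj u v ∧ d = Int.natAbs (((u : ℕ) : ℤ) - ((v : ℕ) : ℤ))} =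
      Set.Icc 1 M ∧ T.IsContained G := by
  classical
  obtain ⟨par, hr⟩ := exists_root T hT r
  have hL' : ∀ p, ¬ Even (T.dist r p) → ∀ S : Finset V,
      (∀ v ∈ S, v ≠ r ∧ par v = p ∧ Chl r par v) → S.card ≤ L := by
    intro p hp S hS
    refine le_trans ?_ (hL p hp)
    rw [← Set.ncard_coe_finset]
    apply Set.ncard_le_ncard _ (Set.toFinite _)
    intro v hv
    obtain ⟨h1, h2, h3⟩ := hS v (mem_coe.1 hv)
    refine ⟨?_, chl_leaf hr h1 h3⟩
    rw [← h2]
    exact hr.adj v h1
  obtain ⟨a, b, f, g, c, π, Sp, Bs, hst, hall⟩ := all hr hL'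
  have hD := hst.dat
  have hb := hD.d0.hb
  obtain ⟨x, hx1, hx2, hx3, hx4, hx5⟩ := exists_x hD
  have hfg : ∀ i j, i < a → j < b → f i ≠ g j := by
    intro i j hi hj h
    apply hst.fodd i hi
    rw [h]
    exact hst.gev j hj
  have hπa : ∀ j, 1 ≤ j → j < b → π j < a := fun j hj hjb => (hD.d0.plt j hj hjb).1
  -- the number of vertices
  have hcardV : Fintype.card V = a + b := by
    have h1 : (univ : Finset V) = (range a).image f ∪ (range b).image g := by
      ext v
      simp only [mem_univ, mem_union, mem_image, mem_range, true_iff]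
      rcases hall v with ⟨i, hi, h⟩ | ⟨j, hj, h⟩
      · exact Or.inl ⟨i, hi, h⟩
      · exact Or.inr ⟨j, hj, h⟩
    rw [← card_univ, h1, card_union_of_disjoint, card_image_of_injOn, card_image_of_injOn,
      card_range, card_range]
    · intro j hj j' hj' h
      rw [mem_coe, mem_range] at hj hj'
      exact hst.ginj j j' hj hj' h
    · intro j hj j' hj' h
      rw [mem_coe, mem_range] at hj hj'
      exact hst.finj j j' hj hj' h
    · rw [disjoint_left]
      intro v hv hv'
      rw [mem_image] at hv hv'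
      obtain ⟨i, hi, h1⟩ := hv
      obtain ⟨j, hj, h2⟩ := hv'
      rw [mem_range] at hi hj
      exact hfg i j hi hj (h1.trans h2.symm)
  have hm : a + b = T.edgeSet.ncard + 1 := by
    have h1 := hT.card_edgeFinset
    rw [Set.ncard_eq_toFinset_card', ← hcardV, ← h1]
    rfl
  -- the root has a child
  have hrc : ¬ Chl r par r := by
    intro hc
    obtain ⟨w, hw⟩ := hne
    rcases hr.cov r w hw with ⟨h1, -⟩ | ⟨h1, h2⟩
    · exact h1 rfl
    · exact hc w h1 h2
  -- everything is placed
  have hplu : ∀ v, v ≠ r → ∀ i, i < a → par v = f i → ∃ j, 1 ≤ j ∧ j < b ∧ g j = v := by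
    intro v hv i hi hvi
    rcases hall v with ⟨i', hi', h1⟩ | ⟨j, hj, h1⟩
    · exfalso
      have h2 := (hst.fpar i' hi').2
      rw [h1, hvi] at h2
      exact hfg i (c i') hi (hD.d0.clt i' hi') h2
    · refine ⟨j, ?_, hj, h1⟩
      rcases Nat.eq_zero_or_pos j with h0 | h0
      · subst h0
        rw [hst.g0] at h1
        exact absurd h1.symm hv
      · exact h0
  have hendb : End r par g (b - 1) := by
    refine ⟨?_, ?_⟩
    · intro w z hw hz hwp hzw
      obtain ⟨v, h1, h2, h3, h4⟩ := hst.last w z hw hz hwp hzw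
      obtain ⟨j, -, h5, h6⟩ := hplu v h1 (a - 1) (by omega) h3
      exact h4 j h5 h6
    · intro hq hqc u hu hup
      obtain ⟨k1, k2⟩ := hst.gpar (b - 1) hq (by omega)
      have k3 := hπa (b - 1) hq (by omega)
      rw [k2] at hup
      obtain ⟨j, hj1, hj, hju⟩ := hplu u hu _ k3 hup
      refine ⟨⟨j, by omega, hju⟩, ?_⟩
      rcases Nat.lt_or_ge j (b - 1) with k4 | k4
      · rw [← hju]
        refine hst.ord hj1 k4 (by omega) ?_ hqc
        have k5 := (hst.gpar j hj1 hj).2
        rw [hju, hup] at k5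
        exact (hst.finj _ _ (hπa j hj1 hj) k3 k5.symm)
      · have k5 : j = b - 1 := by omega
        rw [← hju, k5]
        exact hqc
  -- the number of blocks
  have hcnt : Bs.card + 1 ≤ (Qs T r).ncard := by
    have hlt : ∀ j ∈ Bs, 1 ≤ j ∧ j < b := fun j hj => hst.sp j (hst.bs j hj)
    have hbB : b ∉ Bs := by
      intro h
      have := hlt b h
      omega
    have h1 : (insert b Bs).card = Bs.card + 1 := card_insert_of_notMem hbB
    have hE : ∀ j ∈ insert b Bs, 1 ≤ j ∧ j ≤ b ∧ End r par g (j - 1) := by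
      intro j hj
      rw [mem_insert] at hj
      rcases hj with h2 | h2
      · subst h2
        exact ⟨hb, le_rfl, hendb⟩
      · have := hlt j h2
        exact ⟨this.1, by omega, hst.fin j h2⟩
    set E : ℕ → V := fun j => if Chl r par (g (j - 1)) then par (g (j - 1)) else g (j - 1) with hEd
    have hE1 : ∀ j, Chl r par (g (j - 1)) → E j = par (g (j - 1)) := fun j hj => if_pos hj
    have hE2 : ∀ j, ¬ Chl r par (g (j - 1)) → E j = g (j - 1) := fun j hj => if_neg hj
    have hpos : ∀ j, 1 ≤ j → j ≤ b → Chl r par (g (j - 1)) → 1 ≤ j - 1 ∧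
        π (j - 1) < a ∧ g (j - 1) ≠ r ∧ par (g (j - 1)) = f (π (j - 1)) := by
      intro j hj1 hjb hc
      have h2 : 1 ≤ j - 1 := by
        by_contra h3
        have h4 : j - 1 = 0 := by omega
        rw [h4, hst.g0] at hc
        exact hrc hc
      have h5 := hst.gpar (j - 1) h2 (by omega)
      exact ⟨h2, hπa (j - 1) h2 (by omega), h5.1, h5.2⟩
    have h2 : ((insert b Bs).image E).card = (insert b Bs).card := by
      apply card_image_of_injOn
      have key : ∀ j ∈ insert b Bs, ∀ j' ∈ insert b Bs, j < j' → E j ≠ E j' := by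
        intro j hj j' hj' hjj h
        obtain ⟨h3, h4, h5⟩ := hE j hj
        obtain ⟨h6, h7, h8⟩ := hE j' hj'
        by_cases hc : Chl r par (g (j - 1)) <;> by_cases hc' : Chl r par (g (j' - 1))
        · rw [hE1 j hc, hE1 j' hc'] at h
          obtain ⟨e1, e2, e3, e4⟩ := hpos j h3 h4 hc
          obtain ⟨e1', e2', e3', e4'⟩ := hpos j' h6 h7 hc'
          obtain ⟨⟨q, hq, hq'⟩, -⟩ := h5.2 e1 hc (g (j' - 1)) e3' h.symm
          have := hst.ginj q (j' - 1) (by omega) (by omega) hq'
          omega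
        · rw [hE1 j hc, hE2 j' hc'] at h
          obtain ⟨e1, e2, e3, e4⟩ := hpos j h3 h4 hc
          rw [e4] at h
          exact hfg _ _ e2 (by omega) h
        · rw [hE2 j hc, hE1 j' hc'] at h
          obtain ⟨e1, e2, e3, e4⟩ := hpos j' h6 h7 hc'
          rw [e4] at h
          exact hfg _ _ e2 (by omega) h.symm
        · rw [hE2 j hc, hE2 j' hc'] at h
          have := hst.ginj (j - 1) (j' - 1) (by omega) (by omega) h
          omega
      intro j hj j' hj' h
      rw [mem_coe] at hj hj'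
      rcases lt_trichotomy j j' with h3 | h3 | h3
      · exact absurd h (key j hj j' hj' h3)
      · exact h3
      · exact absurd h.symm (key j' hj' j hj h3)
    rw [← h1, ← h2, ← Set.ncard_coe_finset]
    apply Set.ncard_le_ncard _ (Set.toFinite _)
    intro v hv
    rw [mem_coe, mem_image] at hv
    obtain ⟨j, hj, rfl⟩ := hv
    obtain ⟨h3, h4, h5⟩ := hE j hj
    by_cases hc : Chl r par (g (j - 1))
    · rw [hE1 j hc]
      obtain ⟨e1, e2, e3, e4⟩ := hpos j h3 h4 hc
      refine mem_Qs hr e3 rfl ?_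
      intro w z hw hz hwp hzw
      exact (h5.2 e1 hc w hw hwp).2 z hz hzw
    · rw [hE2 j hc]
      unfold Chl at hc
      push Not at hc
      obtain ⟨w, hw1, hw2⟩ := hc
      exact mem_Qs hr hw1 hw2 h5.1
  -- the number `M`
  obtain ⟨M, hM1, hM2, hM3⟩ : ∃ M, (∀ i, i < a → x i + b ≤ M) ∧ a + b ≤ M + 1 ∧
      M + 1 ≤ a + b + 2 * (L + 1) * Bs.card := by
    rcases Nat.eq_zero_or_pos a with h0 | h0
    · exact ⟨b - 1, fun i hi => by omega, by omega, by omega⟩
    · obtain ⟨k, hk⟩ : ∃ k, k + 1 = a := ⟨a - 1, by omega⟩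
      have h1 := hx5 k hk
      have h2 : ∀ i, i < a → i ≤ x i := by
        intro i
        induction i with
        | zero => intro _; omega
        | succ i ih =>
          intro hi
          have h3 := ih (by omega)
          have h4 := hx1 i (i + 1) (by omega) hi
          omega
      refine ⟨x k + b, ?_, ?_, by omega⟩
      · intro i hi
        rcases Nat.lt_or_ge i k with h3 | h3
        · have := hx1 i k h3 (by omega)
          omega
        · have : i = k := by omega
          rw [this]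
      · have := h2 k (by omega)
        omega
  obtain ⟨G, t1, t2, t3, t4, t5⟩ := complete hD.d0 x hx1 hx2 hx3 hx4 M hM1 hM2
  refine ⟨Bs.card, M, G, by omega, hcnt, t1, t2, t3, ?_⟩
  -- the embedding
  have hF : ∀ v, ∃ n, n < M + 1 ∧ ((∃ i, i < a ∧ f i = v ∧ n = M - x i) ∨
      (∃ j, j < b ∧ g j = v ∧ n = j)) := by
    intro v
    rcases hall v with ⟨i, hi, h⟩ | ⟨j, hj, h⟩
    · exact ⟨M - x i, by omega, Or.inl ⟨i, hi, h, rfl⟩⟩
    · exact ⟨j, by omega, Or.inr ⟨j, hj, h, rfl⟩⟩
  choose F hF1 hF2 using hF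
  have hFf : ∀ i, i < a → F (f i) = M - x i := by
    intro i hi
    rcases hF2 (f i) with ⟨i', hi', h1, h2⟩ | ⟨j, hj, h1, h2⟩
    · rw [h2, hst.finj i' i hi' hi h1]
    · exact absurd h1.symm (hfg i j hi hj)
  have hFg : ∀ j, j < b → F (g j) = j := by
    intro j hj
    rcases hF2 (g j) with ⟨i', hi', h1, h2⟩ | ⟨j', hj', h1, h2⟩
    · exact absurd h1 (hfg i' j hi' hj)
    · rw [h2, hst.ginj j' j hj' hj h1]
  have hinj : ∀ u v, F u = F v → u = v := by
    intro u v h
    rcases hall u with ⟨i, hi, rfl⟩ | ⟨j, hj, rfl⟩ <;>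
    rcases hall v with ⟨i', hi', rfl⟩ | ⟨j', hj', rfl⟩
    · rw [hFf i hi, hFf i' hi'] at h
      have h3 := hM1 i hi
      have h4 := hM1 i' hi'
      rcases lt_trichotomy i i' with h5 | h5 | h5
      · have := hx1 i i' h5 hi'
        omega
      · rw [h5]
      · have := hx1 i' i h5 hi
        omega
    · rw [hFf i hi, hFg j' hj'] at h
      have h3 := hM1 i hi
      omega
    · rw [hFf i' hi', hFg j hj] at h
      have h3 := hM1 i' hi'
      omega
    · rw [hFg j hj, hFg j' hj'] at h
      rw [h]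
  have hadj : ∀ u v, u ≠ r → par u = v → G.Adj ⟨F u, hF1 u⟩ ⟨F v, hF1 v⟩ := by
    intro u v hu huv
    rcases hall u with ⟨i, hi, rfl⟩ | ⟨j, hj, rfl⟩
    · have h1 := (hst.fpar i hi).2
      rw [huv] at h1
      subst h1
      exact t4 i hi _ _ (hFf i hi) (hFg _ (hD.d0.clt i hi))
    · have h0 : 1 ≤ j := by
        rcases Nat.eq_zero_or_pos j with h0 | h0
        · subst h0
          exact absurd hst.g0 hu
        · exact h0
      have h1 := (hst.gpar j h0 hj).2
      rw [huv] at h1
      subst h1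
      exact (t5 j h0 hj ⟨F (f (π j)), hF1 _⟩ ⟨F (g j), hF1 _⟩
        (hFf _ (hD.d0.plt j h0 hj).1) (hFg j hj)).symm
  refine ⟨⟨⟨fun v => ⟨F v, hF1 v⟩, ?_⟩, ?_⟩⟩
  · intro u v huv
    rcases hr.cov u v huv with ⟨h1, h2⟩ | ⟨h1, h2⟩
    · exact hadj u v h1 h2
    · exact (hadj v u h1 h2).symm
  · intro u v huv
    exact hinj u v (congrArg (fun y : Fin (M + 1) => (y : ℕ)) huv)

end Pool.Agent.TH368.GW
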